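import Pool.Agent.Helper92.TN.GoalsF

/-!
# Packet NFL (project TN, MP_a41896_nt): pairwise non-isogenous factors have no flat direction
-/

set_option autoImplicit false

open MvPolynomial

namespace Pool.Agent.Helper71.TN.NFL

open WeierstrassCurve
open Pool.Agent.Helper29.BL Pool.Agent.Helper92.Ru Pool.Agent.Helper42.SG
open Pool.Agent.Helper60.T3 (WL IP zd)
open Pool.Agent.Helper42.TN (NonIsog)
open Pool.Agent.Helper92.TN

/-- the point with given `x` and `ψ` -/
theorem point {L : Type} [Field L] [CharZero L] (W : Affine L) (hW : W.IsElliptic) (X Ψ : L)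
    (h : Ψ ^ 2 = Bf W X) : ∃ P : W.Point, P ≠ 0 ∧ xc P = X ∧ ps P = Ψ := by
  have heq : W.Equation X ((Ψ - W.a₁ * X - W.a₃) / 2) := by
    rw [Affine.equation_iff]
    unfold Bf at h
    rw [WeierstrassCurve.b₂, WeierstrassCurve.b₄, WeierstrassCurve.b₆] at h
    have h2 : (2 : L) ≠ 0 := two_ne_zero
    have h4 : (4 : L) ≠ 0 := by norm_num
    apply mul_left_cancel₀ h4
    field_simp
    linear_combination h
  have hns : W.Nonsingular X ((Ψ - W.a₁ * X - W.a₃) / 2) :=
    (Affine.equation_iff_nonsingular).mp heq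
  refine ⟨Affine.Point.some _ _ hns, ?_, rfl, ?_⟩
  · exact Affine.Point.some_ne_zero hns
  · show 2 * ((Ψ - W.a₁ * X - W.a₃) / 2) + W.a₁ * X + W.a₃ = Ψ
    ring

/-- the derivation maps the field of the generators to itself -/
theorem closed {Ω₁ Ω : Type} [Field Ω₁] [Field Ω] [Algebra Ω₁ Ω] (D : Derivation Ω₁ Ω Ω)
    (S : Set Ω) (h : ∀ z ∈ S, D z ∈ IntermediateField.adjoin Ω₁ S) :
    ∀ z ∈ IntermediateField.adjoin Ω₁ S, D z ∈ IntermediateField.adjoin Ω₁ S := by
  intro z hz
  induction hz using IntermediateField.adjoin_induction with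
  | mem x hx => exact h x hx
  | algebraMap x => rw [D.map_algebraMap]; exact zero_mem _
  | add x y _ _ hx hy => rw [map_add]; exact add_mem hx hy
  | inv x hx' hx =>
    rw [D.leibniz_inv, smul_eq_mul]
    exact mul_mem (neg_mem (pow_mem (inv_mem hx') 2)) hx
  | mul x y hx' hy' hx hy =>
    rw [D.leibniz, smul_eq_mul, smul_eq_mul]
    exact add_mem (mul_mem hx' hy) (mul_mem hy' hx)

theorem t (hG : GENI) (hD : DAL) (hT : TRC) (hN : NISO) : NFL := by
  intro K σ _ _ _ _ W hW hiso a g hg hdeg Ω₁ Ω₂ _ _ _ _ _ _ _ X Ψ hΨ hX hind α hα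
  classical
  -- enlarge Ω₂
  let Ω := AlgebraicClosure Ω₂
  have hK0 : CharZero Ω := charZero_of_injective_algebraMap (algebraMap K Ω).injective
  have hWL : ∀ i, (WL Ω (W i)).IsElliptic := fun i => by
    have := hW i
    unfold WL
    infer_instance
  have hpt : ∀ i, ∃ P : (WL Ω (W i)).Point, P ≠ 0 ∧ xc P = algebraMap Ω₂ Ω (X i) ∧
      ps P = algebraMap Ω₂ Ω (Ψ i) := by
    intro i
    apply point (WL Ω (W i)) (hWL i)
    rw [← map_pow, hΨ i]
    have hb2 : (WL Ω (W i)).b₂ = algebraMap Ω₂ Ω (WL Ω₂ (W i)).b₂ := by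
      rw [WeierstrassCurve.map_b₂, WeierstrassCurve.map_b₂, ← IsScalarTower.algebraMap_apply]
    have hb4 : (WL Ω (W i)).b₄ = algebraMap Ω₂ Ω (WL Ω₂ (W i)).b₄ := by
      rw [WeierstrassCurve.map_b₄, WeierstrassCurve.map_b₄, ← IsScalarTower.algebraMap_apply]
    have hb6 : (WL Ω (W i)).b₆ = algebraMap Ω₂ Ω (WL Ω₂ (W i)).b₆ := by
      rw [WeierstrassCurve.map_b₆, WeierstrassCurve.map_b₆, ← IsScalarTower.algebraMap_apply]
    unfold Bf
    rw [hb2, hb4, hb6]
    simp only [map_add, map_mul, map_pow, map_ofNat]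
  choose x hx0 hxc hps using hpt
  have hev : ∀ p : MvPolynomial σ K, aeval (fun i => xc (x i)) p =
      algebraMap Ω₂ Ω (aeval X p) := by
    intro p
    have : (fun i => xc (x i)) = fun i => algebraMap Ω₂ Ω (X i) := funext hxc
    rw [this]
    exact (aeval_algebraMap_apply Ω X p)
  have hindΩ : ∀ (τ : Type) (f : τ → σ), AlgebraicIndependent Ω₁ (fun i => X (f i)) →
      AlgebraicIndependent Ω₁ (fun i => xc (x (f i))) := by
    intro τ f hf
    have h1 := hf.map' (f := IsScalarTower.toAlgHom Ω₁ Ω₂ Ω) (algebraMap Ω₂ Ω).injective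
    have h2 : (fun i => xc (x (f i))) = (IsScalarTower.toAlgHom Ω₁ Ω₂ Ω) ∘ fun i => X (f i) := by
      funext i
      exact hxc (f i)
    rw [h2]
    exact h1
  have hXΩ : aeval (fun i => xc (x i)) g = 0 := by rw [hev, hX, map_zero]
  obtain ⟨D, hDx⟩ := hD K Ω₁ Ω σ W a g x α hW hg hdeg hx0 hXΩ
    (hindΩ {i : σ // i ≠ a} (fun i => i) hind) (by
      have h1 := congrArg (algebraMap Ω₂ Ω) hα
      rw [map_sum, map_zero] at h1
      rw [← h1]
      refine Finset.sum_congr rfl fun b _ => ?_
      unfold nv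
      rw [map_mul, map_mul, hps, hev, ← IsScalarTower.algebraMap_apply])
  have hG' := hG K Ω₁ Ω σ a g (fun i => xc (x i)) hg hdeg hXΩ
    (hindΩ {i : σ // i ≠ a} (fun i => i) hind)
  funext b
  have hWb := hW b
  obtain ⟨hb1, -, hb3⟩ := hG' b
  set S : Set Ω := Set.range (fun i : {i : σ // i ≠ b} => xc (x i)) ∪
    Set.range (fun i : {i : σ // i ≠ b} => ps (x i)) with hS
  set F : IntermediateField Ω₁ Ω := IntermediateField.adjoin Ω₁ S with hF
  have hgen : ∀ z ∈ S, z ∈ F := fun z hz => IntermediateField.subset_adjoin Ω₁ S hz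
  have hDF : ∀ z ∈ F, D z ∈ F := by
    apply closed
    rintro z (⟨c, rfl⟩ | ⟨c, rfl⟩)
    · show D (xc (x c)) ∈ F
      rw [(hDx c).2]
      exact mul_mem (hgen _ (Or.inr ⟨c, rfl⟩)) (F.algebraMap_mem _)
    · show D (ps (x c)) ∈ F
      by_cases h0 : ps (x c) = 0
      · rw [h0, map_zero]
        exact zero_mem _
      · have hcurve : ps (x c) ^ 2 = Bf (WL Ω (W c)) (xc (x c)) := by
          rw [hps, hxc, ← map_pow, hΨ c]
          unfold Bf
          rw [WeierstrassCurve.map_b₂, WeierstrassCurve.map_b₄, WeierstrassCurve.map_b₆,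
            WeierstrassCurve.map_b₂, WeierstrassCurve.map_b₄, WeierstrassCurve.map_b₆]
          simp only [map_add, map_mul, map_pow, map_ofNat, ← IsScalarTower.algebraMap_apply]
        have hbK : ∀ r : K, D (algebraMap K Ω r) = 0 := by
          intro r
          rw [IsScalarTower.algebraMap_apply K Ω₁ Ω, D.map_algebraMap]
        have h1 := congrArg D hcurve
        unfold Bf at h1
        rw [WeierstrassCurve.map_b₂, WeierstrassCurve.map_b₄, WeierstrassCurve.map_b₆] at h1
        have h4 : D (4 : Ω) = 0 := by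
          have := hbK 4
          rwa [map_ofNat] at this
        have h2' : D (2 : Ω) = 0 := by
          have := hbK 2
          rwa [map_ofNat] at this
        simp only [D.leibniz_pow, map_add, D.leibniz, smul_eq_mul, hbK, h4, h2', nsmul_eq_mul,
          mul_zero, add_zero] at h1
        rw [(hDx c).2] at h1
        have h5 : D (ps (x c)) = (6 * xc (x c) ^ 2 + algebraMap K Ω (W c).b₂ * xc (x c) +
            algebraMap K Ω (W c).b₄) * algebraMap Ω₁ Ω (α c) := by
          have h20 : (2 : Ω) * ps (x c) ≠ 0 := mul_ne_zero two_ne_zero h0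
          apply mul_left_cancel₀ h20
          push_cast at h1
          linear_combination h1
        rw [h5]
        have hKF : ∀ r : K, algebraMap K Ω r ∈ F := by
          intro r
          rw [IsScalarTower.algebraMap_apply K Ω₁ Ω]
          exact F.algebraMap_mem _
        have h6 : (6 : Ω) ∈ F := by
          have := hKF 6
          rwa [map_ofNat] at this
        have hxF : xc (x c) ∈ F := hgen _ (Or.inl ⟨c, rfl⟩)
        exact mul_mem (add_mem (add_mem (mul_mem h6 (pow_mem hxF 2)) (mul_mem (hKF _) hxF))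
          (hKF _)) (F.algebraMap_mem _)
  -- algebraic
  have halg : IsAlgebraic F (xc (x b)) := by
    have h1 : IsAlgebraic (IntermediateField.adjoin Ω₁
        (Set.range fun i : {i : σ // i ≠ b} => xc (x i))) (xc (x b)) := by
      have h2 : xc (x b) ∈ (algebraicClosure (IntermediateField.adjoin Ω₁
        (Set.range fun i : {i : σ // i ≠ b} => xc (x i))) Ω) := hb3
      exact mem_algebraicClosure_iff.mp h2
    have hle : IntermediateField.adjoin Ω₁ (Set.range fun i : {i : σ // i ≠ b} => xc (x i)) ≤ F :=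
      IntermediateField.adjoin.mono _ _ _ Set.subset_union_left
    obtain ⟨p, hp, hp0⟩ := h1
    refine ⟨p.map (IntermediateField.inclusion hle).toRingHom, ?_, ?_⟩
    · intro h
      apply hp
      apply Polynomial.map_injective _ (IntermediateField.inclusion hle).toRingHom.injective
      rw [h, Polynomial.map_zero]
    · rw [Polynomial.aeval_def, Polynomial.eval₂_map]
      rw [Polynomial.aeval_def] at hp0
      exact hp0
  obtain ⟨r, S', hr, hIP, hz⟩ := hT K Ω (W b) (F.restrictScalars K) (D.restrictScalars K) (x b)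
    hDF (hx0 b) halg (by
      show zd D (x b) ∈ F
      rw [(hDx b).1]
      exact F.algebraMap_mem _)
  have hxS := hN K Ω₁ Ω {i : σ // i ≠ b} (fun i => W i) (W b) (fun i => hW i) (hW b)
    (fun i => hiso i b i.2) (fun i => x i) S' (fun i => hx0 i) hb1 hIP
  obtain ⟨c, hc⟩ := hxS
  have hz' : zd D S' = r * zd D (x b) := hz
  have h0 : zd D S' = 0 := by
    unfold zd
    rw [← hc, D.map_algebraMap, zero_div]
  rw [h0, (hDx b).1] at hz'
  have hr' : (r : Ω) ≠ 0 := Nat.cast_ne_zero.mpr hr
  have h7 : algebraMap Ω₁ Ω (α b) = 0 := by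
    rcases mul_eq_zero.mp hz'.symm with h | h
    · exact absurd h hr'
    · exact h
  exact (map_eq_zero_iff _ (algebraMap Ω₁ Ω).injective).mp h7

end Pool.Agent.Helper71.TN.NFL
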